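import Pool.Agent.W78.GC.Defs

/-!
Project FP (helper84): the four sign patterns of the Liouville function at the pairs `(d, d')` with
`d d' = n^2 + 1`, `n` in a given residue class. Definitions and statements.
-/

set_option autoImplicit false

namespace Pool.Agent.W84.FP

open Finset Filter
open Pool.Agent.H376R2.MR
open Pool.Agent.W78.GA Pool.Agent.W78.GC

/-- the Gaussian integers `x + i y` -/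
abbrev Gi := Qd 0 1

/-- complex conjugation -/
def cj (z : Gi) : Gi := ⟨z.re, -z.im⟩

/-- the colour: `z ≡ x mod q` with an integer `x` prime to `q`, and `x ≡ 1 mod 4` -/
def c1 (q : ℕ) (z : Gi) : Prop := (q : ℤ) ∣ z.im ∧ IsCoprime z.re (q : ℤ) ∧ (4 : ℤ) ∣ z.re - 1

/-! ### Part 1: the Matomaki-Radziwill theorem, all frequencies, for a general function `F` -/

section MR

variable {t c : ℤ}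

/-- `- ∑_{m ∈ cell} (ϖ_m/|ϖ_m|)^k / m` for all `k` (compare `GA.PE`, which is `0` for odd `k`) -/
noncomputable def PF (M : ℕ → Prop) (ϖ : ℕ → Qd t c) (H v : ℕ) (k : ℤ) : ℂ :=
  -∑ m ∈ cellM M H v, ps k (ϖ m) / (m : ℂ)

/-- `∑_{z primitive} F(z) w(log(N z/Y))/N z (z/|z|)^k` -/
noncomputable def GF (F : Qd t c → ℤ) (Y : ℝ) (k : ℤ) : ℂ :=
  DPG (pball t c (Real.exp 1 * Y)) (fun z => (F z : ℂ) * (bg Y z : ℂ)) k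

/-- bounded functions which are invariant under multiplication by the elements `ϖ m`, followed by
division by the content -/
structure Tw (M : ℕ → Prop) (ϖ : ℕ → Qd t c) (F : Qd t c → ℤ) : Prop where
  bd : ∀ z, |F z| ≤ 1
  mul : ∀ (m n : ℕ) (u z : Qd t c), M m → n ∣ m → prim u → prim z →
    ϖ m * u = (n : Qd t c) * z → F u = F z

variable (t c)

/-- DECF: the decomposition -/
def S_DECF : Prop := ∀ (Ap Bp M : ℕ → Prop) (E : ℕ) (ρ : ℕ → ℤ) (ϖ : ℕ → Qd t c),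
  Ele t c Ap Bp M E ρ ϖ → ∀ F : Qd t c → ℤ, Tw M ϖ F →
  ∃ C : ℝ, 0 < C ∧ ∀ H v₀ v₁ : ℕ, 1 ≤ H → H ≤ v₀ →
    1 ≤ ∑ v ∈ Ico v₀ v₁, mE M H v → ∀ Y : ℝ, Real.exp (4 * (v₁ : ℝ) / H) ≤ Y →
    ∃ (s : Finset (Qd t c)) (f : Qd t c → ℂ), (∀ z ∈ s, prim z ∧ (nm z : ℝ) ≤ Real.exp 2 * Y) ∧
      (∀ k : ℤ, GF F Y k = -(1 / ((∑ v ∈ Ico v₀ v₁, mE M H v : ℝ) : ℂ)) *
        ∑ v ∈ Ico v₀ v₁, PF M ϖ H v k * GF F (Y * Real.exp (-((v : ℝ) / H))) k + DPG s f k) ∧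
      Y * ∑ z ∈ s, ‖f z‖ ^ 2 ≤ C * (1 / (∑ v ∈ Ico v₀ v₁, mE M H v) + 1 / (H : ℝ) ^ 2)

/-- MOMPF: the moments of `PF` -/
def S_MOMPF : Prop := ∀ (Ap Bp M : ℕ → Prop) (E : ℕ) (ρ : ℕ → ℤ) (ϖ : ℕ → Qd t c),
  Ele t c Ap Bp M E ρ ϖ → ∃ C : ℝ, 1 ≤ C ∧ ∀ H r ℓ K : ℕ, 1 ≤ H → 1 ≤ K →
    (K : ℝ) ≤ Real.exp ((r : ℝ) * ℓ / H) →
    ∑ k ∈ FK K, ‖PF M ϖ H r k‖ ^ (2 * ℓ) ≤ C ^ (ℓ + 1) * (ℓ.factorial : ℝ) ^ 8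

/-- MOM0F: the mean values of `GF` -/
def S_MOM0F : Prop := ∀ F : Qd t c → ℤ, (∀ z, |F z| ≤ 1) →
  ∃ C : ℝ, 0 < C ∧ ∀ (K : ℕ) (Z : ℝ), 3 ≤ Z → 1 ≤ K →
    ∑ k ∈ FK K, ‖GF F Z k‖ ^ 2 ≤ C * (1 + (K : ℝ) / Z)

/-- MOMF: mixed moments -/
def S_MOMF : Prop := ∀ (Ap Bp M : ℕ → Prop) (E : ℕ) (ρ : ℕ → ℤ) (ϖ : ℕ → Qd t c),
  Ele t c Ap Bp M E ρ ϖ → ∀ F : Qd t c → ℤ, (∀ z, |F z| ≤ 1) →
  ∃ C : ℝ, 1 ≤ C ∧ ∀ (H r ℓ K : ℕ) (Z : ℝ), 1 ≤ H → 3 ≤ Z → 1 ≤ K →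
    (K : ℝ) ≤ Z * Real.exp ((r : ℝ) * ℓ / H) →
    ∑ k ∈ FK K, ‖PF M ϖ H r k ^ ℓ * GF F Z k‖ ^ 2 ≤ C ^ (ℓ + 1) * (ℓ.factorial : ℝ) ^ 8

/-- CELLF -/
def S_CELLF : Prop := ∀ (Ap Bp M : ℕ → Prop) (E : ℕ) (ρ : ℕ → ℤ) (ϖ : ℕ → Qd t c),
  Ele t c Ap Bp M E ρ ϖ → ∃ c' : ℝ, 0 < c' ∧ c' ≤ 1 ∧ ∃ Λ : ℕ, ∀ M' H : ℕ, 1 ≤ H →
    ∃ V₀ : ℕ, ∀ v₀ v₁ : ℕ, V₀ ≤ v₀ → Λ * v₀ ≤ v₁ → ∀ k : ℤ, k ≠ 0 →
    |(k : ℝ)| ≤ Real.exp (M' * (v₀ : ℝ) / H) →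
    ∑ v ∈ Ico v₀ v₁, ‖PF M ϖ H v k‖ ≤ (1 - c') * ∑ v ∈ Ico v₀ v₁, mE M H v

variable {t c}

/-- weaker version of `GC.Col` -/
structure Col2 (t c : ℤ) (col : Qd t c → Prop) (u : Qd t c) : Prop where
  div : ∀ (m : ℕ) (z : Qd t c), m ∣ nm u → col ((m : Qd t c) * z) → col z
  mul : ∀ z, col z → col (u * z)
  u_ne : u ≠ 0
  u_lam : lam (nm u) = -1

/-- SC2: sets which meet all sectors between two elements of the given colour with different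
signs are large -/
def S_SC2 (t c : ℤ) : Prop := ∀ (col : Qd t c → Prop) (u : Qd t c), Col2 t c col u →
  S_MRC col → S_A0C col → S_SCC col

end MR

/-! ### Part 2: the colour `c1 q` -/

/-- ELEQ: a system of elements `ϖ m` in the colour `c1 q` -/
def S_ELEQ : Prop := ∀ q : ℕ, 1 ≤ q → 4 ∣ q →
  ∃ (Ap Bp M : ℕ → Prop) (E : ℕ) (ρ : ℕ → ℤ) (ϖ : ℕ → Gi), Ele 0 1 Ap Bp M E ρ ϖ ∧
    (∀ p, Ap p ∨ Bp p → Nat.Coprime p q ∧ p % 4 = 1) ∧ ∀ m, M m → c1 q (ϖ m)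

open scoped Classical in
/-- the Liouville function of the norm, restricted to the colour `c1 q` -/
noncomputable def Fq (q : ℕ) (z : Gi) : ℤ := if c1 q z then gl z else 0

/-- TWQ: the function `Fq q` is invariant -/
def S_TWQ : Prop := ∀ q : ℕ, 1 ≤ q → 4 ∣ q →
  ∀ (Ap Bp M : ℕ → Prop) (E : ℕ) (ρ : ℕ → ℤ) (ϖ : ℕ → Gi), Ele 0 1 Ap Bp M E ρ ϖ →
    (∀ p, Ap p ∨ Bp p → Nat.Coprime p q ∧ p % 4 = 1) → (∀ m, M m → c1 q (ϖ m)) →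
    Tw M ϖ (Fq q) ∧ ∀ (Y : ℝ) (k : ℤ), GF (Fq q) Y k = Gc (c1 q) Y k

/-- A0Q: many primitive elements of the colour `c1 q` -/
def S_A0Q : Prop := ∀ q : ℕ, 1 ≤ q → 4 ∣ q → S_A0C (c1 q)

/-- UEX: an element of the colour `c1 q` with an odd number of prime factors, all of them split -/
def S_UEX : Prop := ∀ q : ℕ, 1 ≤ q → 4 ∣ q →
  ∃ u : Gi, c1 q u ∧ lam (nm u) = -1 ∧ ∀ p : ℕ, p.Prime → p ∣ nm u → p % 4 = 1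

/-! ### Part 3: primes in arithmetic progressions dividing the norms -/

/-- DIR: divergence of `∑ 1/p` in arithmetic progressions -/
def S_DIR : Prop := ∀ (M P₀ : ℕ) (R : ℤ) (T : ℝ), 1 ≤ M → IsCoprime R (M : ℤ) →
  ∃ P : Finset ℕ, (∀ p ∈ P, p.Prime ∧ P₀ < p ∧ (M : ℤ) ∣ (p : ℤ) - R) ∧ T ≤ ∑ p ∈ P, 1 / (p : ℝ)

open scoped Classical in
/-- VAR: few primitive elements have a norm prime to a given set of primes -/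
def S_VAR : Prop := ∃ C : ℝ, 0 < C ∧ ∀ P : Finset ℕ, (∀ p ∈ P, p.Prime ∧ p % 4 = 1) →
  ∃ X₀ : ℝ, ∀ X : ℝ, X₀ ≤ X →
    (((pball 0 1 X).filter (fun z => ∀ p ∈ P, ¬ p ∣ nm z)).card : ℝ) *
      (∑ p ∈ P, 1 / (p : ℝ)) ≤ C * X

/-- no prime `p` with `P₀ < p ≤ P` in some class `R` mod `q δ`, `δ ≤ h`, divides the norm of `z` -/
def bad (q h P₀ P : ℕ) (z : Gi) : Prop := ∃ (δ : ℕ) (R : ℤ), 1 ≤ δ ∧ δ ≤ h ∧ (4 : ℤ) ∣ R - 1 ∧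
  IsCoprime R ((q * δ : ℕ) : ℤ) ∧ ∀ p : ℕ, p.Prime → P₀ < p → p ≤ P →
    ((q * δ : ℕ) : ℤ) ∣ (p : ℤ) - R → ¬ p ∣ nm z

open scoped Classical in
/-- BADP -/
def S_BADP : Prop := ∀ (q h P₀ : ℕ) (η : ℝ), 1 ≤ q → 4 ∣ q → 0 < η → ∃ (P : ℕ) (X₀ : ℝ),
  ∀ X : ℝ, X₀ ≤ X → (((pball 0 1 X).filter (bad q h P₀ P)).card : ℝ) ≤ η * X

/-! ### Part 4: paths -/

/-- PATH: two elements `w`, `w'` of the colour `c1 q` with different signs, and a prime `p ∣ N w'` in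
a certain residue class, give a pair `v, u` of determinant `1`, with `ip v u ≡ a mod q` and given
signs. -/
def S_PATH : Prop := ∀ (q : ℕ) (a : ℤ) (w w' : Gi), 1 ≤ q → 4 ∣ q → prim w → prim w' →
  c1 q w → c1 q w' → 0 < dt w w' → ∃ R : ℤ, (4 : ℤ) ∣ R - 1 ∧ IsCoprime R ((q : ℤ) * dt w w') ∧
  ∀ p : ℕ, p.Prime → (q : ℤ) * dt w w' ∣ (p : ℤ) - R → p ∣ nm w' →
    ip w w' < p * (nm w : ℤ) → (nm w' : ℤ) < p * ip w w' → gl w ≠ gl w' →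
    ∀ e : ℤ, e = 1 ∨ e = -1 → ∃ v u : Gi, dt v u = 1 ∧ 0 < ip v u ∧ (q : ℤ) ∣ ip v u - a ∧
      gl v = e ∧ gl u = gl w ∧ nm v ≤ p ^ 2 * nm w + nm w' ∧ nm u ≤ nm w + nm w' ∧
      (u = w ∨ ∃ π : Gi, nm π = p ∧ w' = π * u)

/-- GAPS: a set which meets all pairs of close elements of the colour `c1 q` with different signs
meets, together with a small set, all sectors between two such elements. -/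
def S_GAPS : Prop := ∃ C : ℝ, 0 < C ∧ ∀ (q : ℕ) (X : ℝ) (h : ℕ) (B : Finset Gi), 1 ≤ h →
  2 * (h : ℝ) ≤ X → (∀ w w' : Gi, w ∈ cball (c1 q) X → w' ∈ cball (c1 q) X → gl w ≠ gl w' →
    0 < dt w w' → dt w w' ≤ h → 0 < ip w w' → w ∈ B ∨ w' ∈ B) →
  ∃ B₁ : Finset Gi, (0 : Gi) ∉ B₁ ∧ (B₁.card : ℝ) ≤ C * (X / h + 1) ∧
    ∀ B' : Finset Gi, B ⊆ B' → B₁ ⊆ B' → Hits (c1 q) X B'

/-! ### Part 5: from pairs to integers -/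

open scoped Classical in
/-- the pairs `v, u` of determinant one, norms at most `X`, `ip v u > 0` congruent to `a` mod `q`,
and signs `e₁, e₂` -/
noncomputable def Eab (q : ℕ) (a e₁ e₂ : ℤ) (X : ℝ) : Finset (Gi × Gi) :=
  (dedge 0 1 X).filter (fun e => 0 < ip e.1 e.2 ∧ (q : ℤ) ∣ ip e.1 e.2 - a ∧ gl e.1 = e₁ ∧
    gl e.2 = e₂)

/-- POS: a positive proportion of the pairs -/
def S_POS (q : ℕ) (a : ℤ) : Prop := ∀ e₁ e₂ : ℤ, (e₁ = 1 ∨ e₁ = -1) → (e₂ = 1 ∨ e₂ = -1) →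
  ∃ κ : ℝ, 0 < κ ∧ ∃ X₀ : ℝ, ∀ X : ℝ, X₀ ≤ X → κ * X ≤ ((Eab q a e₁ e₂ X).card : ℝ)

/-- the final statement -/
def Final (q a : ℕ) : Prop := ∃ S : ℕ, ∀ e₁ e₂ : ℤ, (e₁ = 1 ∨ e₁ = -1) → (e₂ = 1 ∨ e₂ = -1) →
  (∀ ε : ℝ, 0 < ε → ∃ N₀ : ℕ, ∀ N : ℕ, N₀ ≤ N → (N : ℝ) / Real.log N ^ (2 * Real.log 2 + ε) ≤
    (Set.ncard {n : ℕ | 1 ≤ n ∧ n ≤ N ∧ n ≡ a [MOD q] ∧ (∀ k : ℕ, k ^ 2 ∣ n ^ 2 + 1 → k ≤ S) ∧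
      ∃ d d' : ℕ, d * d' = n ^ 2 + 1 ∧ d ≤ S * n ∧ d' ≤ S * n ∧
        (-1 : ℤ) ^ ArithmeticFunction.cardFactors d = e₁ ∧
        (-1 : ℤ) ^ ArithmeticFunction.cardFactors d' = e₂} : ℝ)) ∧
  ∃ κ : ℝ, 0 < κ ∧ ∃ N₀ : ℕ, ∀ N : ℕ, N₀ ≤ N → κ * N ≤
    (Set.ncard {p : ℕ × ℕ | 1 ≤ p.1 ∧ p.1 ≤ N ∧ 1 ≤ p.2 ∧ p.2 ≤ N ∧
      (∃ n : ℕ, n ≡ a [MOD q] ∧ p.1 * p.2 = n ^ 2 + 1) ∧ (∀ k : ℕ, k ^ 2 ∣ p.1 * p.2 → k ≤ S) ∧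
      (-1 : ℤ) ^ ArithmeticFunction.cardFactors p.1 = e₁ ∧
      (-1 : ℤ) ^ ArithmeticFunction.cardFactors p.2 = e₂} : ℝ)

/-- FINQ: from pairs to integers -/
def S_FINQ : Prop := ∀ q a : ℕ, 1 ≤ q → S_POS q a → Final q a

end Pool.Agent.W84.FP
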