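import Pool.Agent.W84.FP.Defs
import Pool.Agent.W803.GA.Pair

/-!
Project FP (helper84): from the hitting theorem and the path lemma to a positive proportion of pairs
with given signs and given residue class.
-/

set_option autoImplicit false

namespace Pool.Agent.W84.FP

open Finset Filter
open Pool.Agent.H376R2.MR
open Pool.Agent.W78.GA Pool.Agent.W78.GC

lemma hD01 : (0 : ℤ) ^ 2 < 4 * 1 := by norm_num

lemma cj_eq_star (z : Gi) : cj z = star z := by
  apply QuadraticAlgebra.ext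
  · simp [cj, QuadraticAlgebra.re_star]
  · simp [cj, QuadraticAlgebra.im_star]

lemma nm_one' : nm (1 : Gi) = 1 := by
  have := nm_natCast (t := 0) (c := 1) 1
  rwa [Nat.cast_one, one_pow] at this

lemma other_sign {x y e : ℤ} (hx : x = 1 ∨ x = -1) (hy : y = 1 ∨ y = -1) (he : e = 1 ∨ e = -1)
    (hxy : x ≠ y) (hxe : x ≠ e) : y = e := by omega

lemma cj_cj (z : Gi) : cj (cj z) = z := by
  apply QuadraticAlgebra.ext <;> simp [cj]

lemma gl_cj (z : Gi) : gl (cj z) = gl z := by rw [cj_eq_star, gl_star]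

lemma nm_cj (z : Gi) : nm (cj z) = nm z := by rw [cj_eq_star, nm_star]

lemma prim_cj {z : Gi} : prim (cj z) ↔ prim z := by rw [cj_eq_star, prim_star]

lemma c1_cj {q : ℕ} {z : Gi} (h : c1 q z) : c1 q (cj z) :=
  ⟨by simpa [cj] using h.1, h.2.1, h.2.2⟩

lemma dt_cj (w w' : Gi) : dt (cj w') (cj w) = dt w w' := by
  simp only [dt, cj]; ring

lemma ip_cj (w w' : Gi) : ip (cj w') (cj w) = ip w w' := by
  simp only [ip, cj]; ring

lemma bad_cj {q h P₀ P : ℕ} {z : Gi} (hz : bad q h P₀ P (cj z)) : bad q h P₀ P z := by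
  unfold bad at *
  simpa only [nm_cj] using hz

lemma mem_cb {q : ℕ} {X : ℝ} {z : Gi} :
    z ∈ cball (c1 q) X ↔ (prim z ∧ (nm z : ℝ) ≤ X) ∧ c1 q z := by
  classical
  unfold cball
  rw [mem_filter, mem_pball hD01]

lemma mem_Eab {q : ℕ} {a e₁ e₂ : ℤ} {X : ℝ} {e : Gi × Gi} :
    e ∈ Eab q a e₁ e₂ X ↔ (e.1 ∈ pball 0 1 X ∧ e.2 ∈ pball 0 1 X ∧ dt e.1 e.2 = 1) ∧
      0 < ip e.1 e.2 ∧ (q : ℤ) ∣ ip e.1 e.2 - a ∧ gl e.1 = e₁ ∧ gl e.2 = e₂ := by
  classical
  unfold Eab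
  rw [mem_filter, mem_dedge]

/-- a pair of close elements with different signs gives an edge -/
lemma near_edge (hpath : S_PATH) {q h P₀ P : ℕ} {a : ℤ} (hq : 1 ≤ q) (h4 : 4 ∣ q) {e₁ : ℤ}
    (he₁ : e₁ = 1 ∨ e₁ = -1) {η X : ℝ} (hη : 0 < η) (hP₀ : 2 / η ≤ P₀)
    (hX : 2 * (h : ℝ) ^ 2 < η ^ 2 * X ^ 2) (hX0 : 0 < X) {w w' : Gi}
    (hw : w ∈ cball (c1 q) X) (hw' : w' ∈ cball (c1 q) X)
    (hgl : gl w ≠ gl w') (hd : 0 < dt w w') (hdh : dt w w' ≤ h) (hip : 0 < ip w w')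
    (hwη : η * X < nm w) (hwη' : η * X < nm w') (hb : ¬ bad q h P₀ P w') :
    ∃ v u : Gi, (v, u) ∈ Eab q a e₁ (gl w) (((P : ℝ) ^ 2 + 1) * X) ∧
      (u = w ∨ ∃ π : Gi, 1 ≤ nm π ∧ (nm π : ℝ) ≤ P ∧ w' = π * u) := by
  obtain ⟨⟨hwp, hwX⟩, hwc⟩ := mem_cb.1 hw
  obtain ⟨⟨hwp', hwX'⟩, hwc'⟩ := mem_cb.1 hw'
  obtain ⟨R, hR4, hRc, hR⟩ := hpath q a w w' hq h4 hwp hwp' hwc hwc' hd
  obtain ⟨δ, hδ⟩ : ∃ δ : ℕ, (δ : ℤ) = dt w w' := ⟨(dt w w').toNat, Int.toNat_of_nonneg hd.le⟩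
  have hδ1 : 1 ≤ δ := by
    have : (0 : ℤ) < δ := by rw [hδ]; exact hd
    omega
  have hδh : δ ≤ h := by
    have : (δ : ℤ) ≤ h := by rw [hδ]; exact hdh
    omega
  have hqδ : ((q * δ : ℕ) : ℤ) = (q : ℤ) * dt w w' := by push_cast; rw [hδ]
  unfold bad at hb
  push Not at hb
  obtain ⟨p, hp, hpP₀, hpP, hpd, hpn⟩ := hb δ R hδ1 hδh hR4 (by rw [hqδ]; exact hRc)
  rw [hqδ] at hpd
  -- the inequalities
  have hid : (nm w : ℝ) * nm w' = (ip w w' : ℝ) ^ 2 + (dt w w' : ℝ) ^ 2 := by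
    have := ip_dt hD01 w w'
    have h2 : ((nm w : ℤ) : ℝ) * ((nm w' : ℤ) : ℝ) =
        ((ip w w' ^ 2 + 0 * ip w w' * dt w w' + 1 * dt w w' ^ 2 : ℤ) : ℝ) := by
      exact_mod_cast this
    push_cast at h2
    rw [h2]; ring
  set A : ℝ := (nm w : ℝ) with hA
  set B : ℝ := (nm w' : ℝ) with hB
  set I : ℝ := (ip w w' : ℝ) with hI
  set D : ℝ := (dt w w' : ℝ) with hDd
  have hI0 : 0 < I := by rw [hI]; exact_mod_cast hip
  have hD0 : 0 < D := by rw [hDd]; exact_mod_cast hd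
  have hDh : D ≤ h := by rw [hDd]; exact_mod_cast hdh
  have hηX : 0 < η * X := mul_pos hη hX0
  have hA0 : 0 < A := by linarith
  have hB0 : 0 < B := by linarith
  have hpR : (P₀ : ℝ) < p := by exact_mod_cast hpP₀
  have hpη : 2 < p * η := by
    have : 2 / η < p := lt_of_le_of_lt hP₀ hpR
    rwa [div_lt_iff₀ hη] at this
  have hp1 : (1 : ℝ) ≤ p := by exact_mod_cast hp.one_lt.le
  have hp2η : 2 ≤ (p : ℝ) ^ 2 * η := by nlinarith
  have hAB : A * B ≤ A * X := mul_le_mul_of_nonneg_left hwX' hA0.le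
  have i1 : I < p * A := by
    have h1 : I ^ 2 < (p * A) ^ 2 := by
      have h2 : I ^ 2 < A * B := by nlinarith [pow_pos hD0 2]
      have h3 : A * X ≤ (p * A) ^ 2 := by
        have h4 : X ≤ (p : ℝ) ^ 2 * A := by
          have : (p : ℝ) ^ 2 * (η * X) ≤ (p : ℝ) ^ 2 * A :=
            mul_le_mul_of_nonneg_left hwη.le (by positivity)
          nlinarith
        calc A * X ≤ A * ((p : ℝ) ^ 2 * A) := mul_le_mul_of_nonneg_left h4 hA0.le
          _ = (p * A) ^ 2 := by ring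
      linarith
    exact lt_of_pow_lt_pow_left₀ 2 (by positivity) h1
  have i2 : B < p * I := by
    have h1 : B ^ 2 < (p * I) ^ 2 := by
      have h2 : (p * I) ^ 2 = (p : ℝ) ^ 2 * (A * B - D ^ 2) := by
        rw [hid]; ring
      rw [h2]
      have h3 : D ^ 2 ≤ (h : ℝ) ^ 2 := pow_le_pow_left₀ hD0.le hDh 2
      have h5 : η * X * B ≤ A * B := mul_le_mul_of_nonneg_right hwη.le hB0.le
      have h6 : B ^ 2 ≤ X * B := by nlinarith
      have h7 : X * B ≤ (p : ℝ) ^ 2 * (η * X * B / 2) := by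
        have : 2 * (X * B) ≤ (p : ℝ) ^ 2 * η * (X * B) :=
          mul_le_mul_of_nonneg_right hp2η (by positivity)
        nlinarith
      have h8 : (h : ℝ) ^ 2 < η * X * B / 2 := by
        have : η * X * (η * X) ≤ η * X * B := mul_le_mul_of_nonneg_left hwη'.le hηX.le
        nlinarith
      have h9 : D ^ 2 < η * X * B / 2 := by linarith
      have hp2 : (0 : ℝ) < (p : ℝ) ^ 2 := by positivity
      have h10 : (p : ℝ) ^ 2 * (η * X * B / 2) < (p : ℝ) ^ 2 * (A * B - D ^ 2) := by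
        apply mul_lt_mul_of_pos_left _ hp2
        linarith
      linarith
    exact lt_of_pow_lt_pow_left₀ 2 (by positivity) h1
  obtain ⟨v, u, hdt, hip', hq', hv, hu, hnv, hnu, hc⟩ := hR p hp hpd hpn
    (by
      have : ((ip w w' : ℤ) : ℝ) < (((p : ℤ) * (nm w : ℤ) : ℤ) : ℝ) := by push_cast; exact i1
      exact_mod_cast this)
    (by
      have : (((nm w' : ℕ) : ℤ) : ℝ) < (((p : ℤ) * ip w w' : ℤ) : ℝ) := by push_cast; exact i2
      exact_mod_cast this) hgl e₁ he₁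
  have hPp : (p : ℝ) ≤ P := by exact_mod_cast hpP
  have hP1 : (1 : ℝ) ≤ P := hp1.trans hPp
  have hpr := prim_of_dt hdt
  refine ⟨v, u, mem_Eab.2 ⟨⟨?_, ?_, hdt⟩, hip', hq', hv, hu⟩, ?_⟩
  · rw [mem_pball hD01]
    refine ⟨hpr.1, ?_⟩
    have h1 : ((nm v : ℕ) : ℝ) ≤ ((p ^ 2 * nm w + nm w' : ℕ) : ℝ) := Nat.cast_le.2 hnv
    push_cast at h1
    rw [← hA, ← hB] at h1
    have h2 : (p : ℝ) ^ 2 * A ≤ (P : ℝ) ^ 2 * X :=
      mul_le_mul (pow_le_pow_left₀ (by linarith) hPp 2) hwX hA0.le (by positivity)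
    calc (nm v : ℝ) ≤ (p : ℝ) ^ 2 * A + B := h1
      _ ≤ (P : ℝ) ^ 2 * X + X := add_le_add h2 hwX'
      _ = _ := by ring
  · rw [mem_pball hD01]
    refine ⟨hpr.2, ?_⟩
    have h1 : ((nm u : ℕ) : ℝ) ≤ ((nm w + nm w' : ℕ) : ℝ) := Nat.cast_le.2 hnu
    push_cast at h1
    rw [← hA, ← hB] at h1
    have h2 : X ≤ (P : ℝ) ^ 2 * X := by
      have : (1 : ℝ) ≤ (P : ℝ) ^ 2 := one_le_pow₀ hP1
      nlinarith
    calc (nm u : ℝ) ≤ A + B := h1
      _ ≤ X + X := add_le_add hwX hwX'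
      _ ≤ (P : ℝ) ^ 2 * X + X := by linarith
      _ = _ := by ring
  · rcases hc with h | ⟨π, hπ, h⟩
    · exact Or.inl h
    · exact Or.inr ⟨π, by rw [hπ]; exact hp.one_lt.le, by rw [hπ]; exact hPp, h⟩

theorem pos_of (hlat : S_LAT 0 1) (hpath : S_PATH) (hbad : S_BADP) (hgaps : S_GAPS) {q : ℕ}
    (hq : 1 ≤ q) (h4 : 4 ∣ q) (hscc : S_SCC (c1 q)) (a : ℤ) : S_POS q a := by
  classical
  intro e₁ e₂ he₁ he₂
  obtain ⟨ε, hε, X₁, hscc⟩ := hscc
  obtain ⟨CG, hCG, hgaps⟩ := hgaps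
  obtain ⟨CL, hCL, hball⟩ : ∃ C : ℝ, 0 < C ∧ ∀ X : ℝ, 1 ≤ X → ((ball 0 1 X).card : ℝ) ≤ C * X := by
    obtain ⟨C, hC, h1, _⟩ := hlat
    refine ⟨C + |kap 0 1| + 1, by positivity, ?_⟩
    intro X hX
    have h := (abs_le.1 (h1 X 1 0 hX le_rfl)).2
    have hf : (ball 0 1 X).filter (lat 1 0) = ball 0 1 X := by
      apply Finset.filter_true_of_mem
      intro z _
      simp [lat]
    rw [hf, Nat.cast_one, div_one] at h
    have h2 : Real.sqrt X ≤ X := by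
      rw [Real.sqrt_le_left (by linarith)]
      nlinarith
    have h3 : kap 0 1 * X ≤ |kap 0 1| * X :=
      mul_le_mul_of_nonneg_right (le_abs_self _) (by linarith)
    have h5 := mul_le_mul_of_nonneg_left h2 hC.le
    nlinarith
  obtain ⟨h, hh⟩ := exists_nat_ge (8 * CG / ε + 1)
  have hh1 : (1 : ℝ) ≤ h := by
    have : 0 ≤ 8 * CG / ε := by positivity
    linarith
  have hh1' : 1 ≤ h := by exact_mod_cast hh1
  have hhG : CG / h ≤ ε / 8 := by
    rw [div_le_div_iff₀ (by linarith) (by norm_num)]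
    have : 8 * CG / ε ≤ h := by linarith
    rw [div_le_iff₀ hε] at this
    linarith
  set η : ℝ := min 1 (ε / (8 * CL)) with hηdef
  have hη : 0 < η := lt_min one_pos (by positivity)
  have hη1 : η ≤ 1 := min_le_left _ _
  have hη2 : CL * η ≤ ε / 8 := by
    have : η ≤ ε / (8 * CL) := min_le_right _ _
    calc CL * η ≤ CL * (ε / (8 * CL)) := mul_le_mul_of_nonneg_left this hCL.le
      _ = ε / 8 := by field_simp
  obtain ⟨P₀, hP₀⟩ := exists_nat_ge (2 / η)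
  obtain ⟨P, X₂, hbad⟩ := hbad q h P₀ (ε / 8) hq h4 (by linarith)
  set Pi : Finset Gi := insert 1 (ball 0 1 (P : ℝ)) with hPi
  set L : ℝ := (P : ℝ) ^ 2 + 1 with hL
  have hL1 : 1 ≤ L := by rw [hL]; nlinarith [sq_nonneg (P : ℝ)]
  have hPic : 0 < (Pi.card : ℝ) := by
    have : 0 < Pi.card := card_pos.2 ⟨1, by rw [hPi]; exact mem_insert_self _ _⟩
    exact_mod_cast this
  refine ⟨ε / (4 * Pi.card * L), by positivity,
    L * (|X₁| + |X₂| + 2 * h / η + 2 * h + 1 / η + 8 * CG / ε + 1), fun X' hX' => ?_⟩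
  set X : ℝ := X' / L with hXdef
  have hLX : L * X = X' := by rw [hXdef]; field_simp
  have hbig : |X₁| + |X₂| + 2 * h / η + 2 * h + 1 / η + 8 * CG / ε + 1 ≤ X := by
    rw [hXdef, le_div_iff₀ (by linarith)]
    linarith
  have p1 := abs_nonneg X₁
  have p2 := abs_nonneg X₂
  have p3 : 0 ≤ 2 * h / η := by positivity
  have p4 : 0 ≤ 1 / η := by positivity
  have p5 : 0 ≤ 8 * CG / ε := by positivity
  have hX1 : X₁ ≤ X := (le_abs_self _).trans (by linarith)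
  have hX2 : X₂ ≤ X := (le_abs_self _).trans (by linarith)
  have hXh : 2 * (h : ℝ) ≤ X := by linarith
  have hX0 : 0 < X := by linarith
  have hXη : 1 ≤ η * X := by
    have : 1 / η ≤ X := by linarith
    rw [div_le_iff₀ hη] at this
    linarith
  have hXh2 : 2 * (h : ℝ) ^ 2 < η ^ 2 * X ^ 2 := by
    have h1 : 2 * h / η ≤ X := by linarith
    rw [div_le_iff₀ hη] at h1
    have h2 : (2 * (h : ℝ)) ^ 2 ≤ (X * η) ^ 2 := pow_le_pow_left₀ (by positivity) h1 2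
    nlinarith
  have hXG : CG ≤ ε / 8 * X := by
    have : 8 * CG / ε ≤ X := by linarith
    rw [div_le_iff₀ hε] at this
    linarith
  -- the sets
  set ED : Finset (Gi × Gi) := Eab q a e₁ e₂ X' with hED
  set B0 : Finset Gi := ball 0 1 (η * X) with hB0
  set B2 : Finset Gi := (pball 0 1 X).filter (bad q h P₀ P) with hB2
  set B3 : Finset Gi := (ED ×ˢ Pi).image (fun x => x.2 * x.1.2) with hB3
  set B4 : Finset Gi := (ED ×ˢ Pi).image (fun x => cj (x.2 * x.1.2)) with hB4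
  set B : Finset Gi := B0 ∪ B2 ∪ (B3 ∪ B4) with hB
  have hED0 : ∀ e ∈ ED, e.2 ≠ 0 := by
    intro e he
    rw [hED, mem_Eab] at he
    exact prim_ne_zero ((mem_pball hD01).1 he.1.2.1).1
  have hPi0 : ∀ z ∈ Pi, z ≠ 0 := by
    intro z hz
    rw [hPi, mem_insert] at hz
    rcases hz with rfl | hz
    · rw [← one_le_nm hD01, nm_one']
    · exact (one_le_nm hD01).1 ((mem_ball hD01).1 hz).1
  have hmem : ∀ v u : Gi, (v, u) ∈ ED → ∀ z : Gi,
      (u = z ∨ ∃ π : Gi, 1 ≤ nm π ∧ (nm π : ℝ) ≤ P ∧ z = π * u) → ∃ π ∈ Pi, z = π * u := by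
    rintro v u - z (rfl | ⟨π, h1, h2, rfl⟩)
    · exact ⟨1, by rw [hPi]; exact mem_insert_self _ _, (one_mul _).symm⟩
    · refine ⟨π, ?_, rfl⟩
      rw [hPi]
      exact mem_insert_of_mem ((mem_ball hD01).2 ⟨h1, h2⟩)
  -- the closeness condition
  have hcond : ∀ w w' : Gi, w ∈ cball (c1 q) X → w' ∈ cball (c1 q) X → gl w ≠ gl w' →
      0 < dt w w' → dt w w' ≤ h → 0 < ip w w' → w ∈ B ∨ w' ∈ B := by
    intro w w' hw hw' hgl hd hdh hip
    obtain ⟨⟨hwp, hwX⟩, hwc⟩ := mem_cb.1 hw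
    obtain ⟨⟨hwp', hwX'⟩, hwc'⟩ := mem_cb.1 hw'
    by_cases c0 : (nm w : ℝ) ≤ η * X
    · left
      rw [hB, mem_union, mem_union]
      exact Or.inl (Or.inl ((mem_ball hD01).2 ⟨(one_le_nm hD01).2 (prim_ne_zero hwp), c0⟩))
    by_cases c0' : (nm w' : ℝ) ≤ η * X
    · right
      rw [hB, mem_union, mem_union]
      exact Or.inl (Or.inl ((mem_ball hD01).2 ⟨(one_le_nm hD01).2 (prim_ne_zero hwp'), c0'⟩))
    by_cases cb : bad q h P₀ P w
    · left
      rw [hB, mem_union, mem_union]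
      exact Or.inl (Or.inr (mem_filter.2 ⟨(mem_pball hD01).2 ⟨hwp, hwX⟩, cb⟩))
    by_cases cb' : bad q h P₀ P w'
    · right
      rw [hB, mem_union, mem_union]
      exact Or.inl (Or.inr (mem_filter.2 ⟨(mem_pball hD01).2 ⟨hwp', hwX'⟩, cb'⟩))
    push Not at c0 c0'
    by_cases hs : gl w = e₂
    · obtain ⟨v, u, hvu, hor⟩ := near_edge (a := a) hpath hq h4 he₁ hη hP₀ hXh2 hX0 hw hw' hgl hd
        hdh hip c0 c0' cb'
      rw [← hL, hLX, hs, ← hED] at hvu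
      rcases hor with h5 | h5
      · left
        obtain ⟨π, hπ, hz⟩ := hmem v u hvu w (Or.inl h5)
        rw [hB, mem_union, mem_union, mem_union]
        exact Or.inr (Or.inl (mem_image.2 ⟨((v, u), π), mem_product.2 ⟨hvu, hπ⟩, hz.symm⟩))
      · right
        obtain ⟨π, hπ, hz⟩ := hmem v u hvu w' (Or.inr h5)
        rw [hB, mem_union, mem_union, mem_union]
        exact Or.inr (Or.inl (mem_image.2 ⟨((v, u), π), mem_product.2 ⟨hvu, hπ⟩, hz.symm⟩))
    · have hs' : gl (cj w') = e₂ := by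
        rw [gl_cj]
        exact other_sign (gl_eq w) (gl_eq w') he₂ hgl hs
      have hcw : cj w ∈ cball (c1 q) X :=
        mem_cb.2 ⟨⟨prim_cj.2 hwp, by rw [nm_cj]; exact hwX⟩, c1_cj hwc⟩
      have hcw' : cj w' ∈ cball (c1 q) X :=
        mem_cb.2 ⟨⟨prim_cj.2 hwp', by rw [nm_cj]; exact hwX'⟩, c1_cj hwc'⟩
      obtain ⟨v, u, hvu, hor⟩ := near_edge (a := a) (w := cj w') (w' := cj w) hpath hq h4 he₁ hη hP₀
        hXh2 hX0 hcw' hcw (by rw [gl_cj, gl_cj]; exact hgl.symm) (by rw [dt_cj]; exact hd)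
        (by rw [dt_cj]; exact hdh) (by rw [ip_cj]; exact hip) (by rw [nm_cj]; exact c0')
        (by rw [nm_cj]; exact c0) (fun h5 => cb (bad_cj h5))
      rw [← hL, hLX, hs', ← hED] at hvu
      rcases hor with h5 | h5
      · right
        obtain ⟨π, hπ, hz⟩ := hmem v u hvu (cj w') (Or.inl h5)
        rw [hB, mem_union, mem_union, mem_union]
        refine Or.inr (Or.inr (mem_image.2 ⟨((v, u), π), mem_product.2 ⟨hvu, hπ⟩, ?_⟩))
        simp only
        rw [← hz, cj_cj]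
      · left
        obtain ⟨π, hπ, hz⟩ := hmem v u hvu (cj w) (Or.inr h5)
        rw [hB, mem_union, mem_union, mem_union]
        refine Or.inr (Or.inr (mem_image.2 ⟨((v, u), π), mem_product.2 ⟨hvu, hπ⟩, ?_⟩))
        simp only
        rw [← hz, cj_cj]
  obtain ⟨B₁, hB₁0, hB₁c, hB₁⟩ := hgaps q X h B hh1' hXh hcond
  have h0B : (0 : Gi) ∉ B ∪ B₁ := by
    rw [mem_union, hB, mem_union, mem_union, mem_union]
    rintro (((h5 | h5) | (h5 | h5)) | h5)
    · exact (one_le_nm hD01).1 ((mem_ball hD01).1 h5).1 rfl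
    · exact prim_ne_zero ((mem_pball hD01).1 (mem_filter.1 h5).1).1 rfl
    · obtain ⟨x, hx, h6⟩ := mem_image.1 h5
      rw [mem_product] at hx
      exact Pool.Agent.W803.GA.mul_ne_zero' hD01 (hPi0 _ hx.2) (hED0 _ hx.1) h6
    · obtain ⟨x, hx, h6⟩ := mem_image.1 h5
      rw [mem_product] at hx
      have h7 := Pool.Agent.W803.GA.mul_ne_zero' hD01 (hPi0 _ hx.2) (hED0 _ hx.1)
      apply h7
      have h8 := congrArg cj h6
      rw [cj_cj] at h8
      rw [h8]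
      apply QuadraticAlgebra.ext <;> simp [cj]
    · exact hB₁0 h5
  have hmain := hscc X hX1 (B ∪ B₁) h0B (hB₁ (B ∪ B₁) subset_union_left subset_union_right)
  -- the cardinalities
  have k0 : (B0.card : ℝ) ≤ ε / 8 * X := by
    calc (B0.card : ℝ) ≤ CL * (η * X) := hball _ hXη
      _ = CL * η * X := by ring
      _ ≤ ε / 8 * X := mul_le_mul_of_nonneg_right hη2 hX0.le
  have k2 : (B2.card : ℝ) ≤ ε / 8 * X := hbad X hX2
  have k3 : (B3.card : ℝ) ≤ ED.card * Pi.card := by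
    have : B3.card ≤ (ED ×ˢ Pi).card := card_image_le
    rw [card_product] at this
    exact_mod_cast this
  have k4 : (B4.card : ℝ) ≤ ED.card * Pi.card := by
    have : B4.card ≤ (ED ×ˢ Pi).card := card_image_le
    rw [card_product] at this
    exact_mod_cast this
  have k1 : (B₁.card : ℝ) ≤ ε / 4 * X := by
    calc (B₁.card : ℝ) ≤ CG * (X / h + 1) := hB₁c
      _ = CG / h * X + CG := by ring
      _ ≤ ε / 8 * X + ε / 8 * X := add_le_add (mul_le_mul_of_nonneg_right hhG hX0.le) hXG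
      _ = ε / 4 * X := by ring
  have ku : ((B ∪ B₁).card : ℝ) ≤ B0.card + B2.card + (B3.card + B4.card) + B₁.card := by
    have u1 := card_union_le B B₁
    have u2 : B.card ≤ (B0 ∪ B2).card + (B3 ∪ B4).card := by rw [hB]; exact card_union_le _ _
    have u3 := card_union_le B0 B2
    have u4 := card_union_le B3 B4
    have : (B ∪ B₁).card ≤ B0.card + B2.card + (B3.card + B4.card) + B₁.card := by omega
    exact_mod_cast this
  have hfin : ε / 2 * X ≤ 2 * (ED.card * Pi.card) := by linarith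
  have hX'L : X = X' / L := rfl
  rw [div_mul_eq_mul_div, div_le_iff₀ (by positivity)]
  calc ε * X' = ε * (L * X) := by rw [hLX]
    _ = L * 2 * (ε / 2 * X) := by ring
    _ ≤ L * 2 * (2 * (ED.card * Pi.card)) := mul_le_mul_of_nonneg_left hfin (by positivity)
    _ = (ED.card : ℝ) * (4 * Pi.card * L) := by ring

end Pool.Agent.W84.FP
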