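import Pool.Agent.W84.FP.MR
import Pool.Agent.W84.FP.Pos
import Pool.Agent.W78.GA.All
import Pool.Agent.W327.GA.Ang1
import Pool.Agent.W440.FP.Decf
import Pool.Agent.W108.FP.Mompf
import Pool.Agent.W193.FP.Momf
import Pool.Agent.W125.FP.Cellf
import Pool.Agent.W320.FP.Twq
import Pool.Agent.W613.FP.Eleq
import Pool.Agent.W135.FP.Uex
import Pool.Agent.W538.FP.SC2
import Pool.Agent.W636.FP.Dir
import Pool.Agent.W64.FP.Var
import Pool.Agent.W392.FP.Badp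
import Pool.Agent.W362.FP.Path
import Pool.Agent.W337.FP.Gaps
import Pool.Agent.W214.FP.Finq
import Pool.Agent.W56.FP.A0Q

/-!
Project FP (helper84): all parts together.
-/

set_option autoImplicit false

namespace Pool.Agent.W84.FP

open Finset Filter
open Pool.Agent.H376R2.MR
open Pool.Agent.W78.GA Pool.Agent.W78.GC

/-- the Matomaki-Radziwill theorem for the colour `c1 q` -/
theorem mrq {q : ℕ} (hq : 1 ≤ q) (h4 : 4 ∣ q) : S_MRC (c1 q) := by
  have hD := hD01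
  have hlat : S_LAT 0 1 := Pool.Agent.W45.GA.lat hD
  have hred : S_RED 0 1 := Pool.Agent.W322.GA.red hD
  have hlati : S_LATI 0 1 := Pool.Agent.W322.GA.lati_of hD hlat hred
  have hls : S_LS 0 1 := Pool.Agent.W327.GA.ls hD
  have hang : S_ANG 0 1 := Pool.Agent.W397.GA.ang_of (Pool.Agent.W327.GA.ang1 hD)
    (Pool.Agent.W397.GA.ang2 hD)
  have hangi : S_ANGI 0 1 := Pool.Agent.W322.GA.angi_of hD hang hred
  have hmach : S_MACH := Pool.Agent.W586.GA.mach_of Pool.Agent.W240.GA.leva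
    Pool.Agent.W240.GA.levb Pool.Agent.W397.GA.s_cnt Pool.Agent.W586.GA.upart
  exact mrcq hmach (Pool.Agent.W440.FP.decf hD hlati (Pool.Agent.W999.GA.tk_of hD hlat hlati))
    (Pool.Agent.W108.FP.mom0f hD hls hlat) (Pool.Agent.W108.FP.mompf hD hls)
    (Pool.Agent.W193.FP.momf hD hls hlat hlati)
    (Pool.Agent.W191.GA.sparse_of hD hang hlat) hls
    (Pool.Agent.W125.FP.cellf hD
      (Pool.Agent.W194.GA.sele_of hD hangi hlat (Pool.Agent.W109.GA.selb hD)))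
    hlat Pool.Agent.W613.FP.eleq Pool.Agent.W320.FP.twq hq h4

lemma c1_mul {q : ℕ} (h4 : 4 ∣ q) {u z : Gi} (hu : c1 q u) (hz : c1 q z) : c1 q (u * z) := by
  obtain ⟨⟨a, ha⟩, h2, ⟨b, hb⟩⟩ := hu
  obtain ⟨⟨a', ha'⟩, h2', ⟨b', hb'⟩⟩ := hz
  obtain ⟨r, hr⟩ := h4
  have hr' : (q : ℤ) = 4 * r := by rw [hr]; push_cast; ring
  have hb1 : u.re = 4 * b + 1 := by linarith
  have hb1' : z.re = 4 * b' + 1 := by linarith
  have ere : (u * z).re = u.re * z.re + (q : ℤ) * (-(u.im * a')) := by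
    rw [QuadraticAlgebra.re_mul, ha']; ring
  have eim : (u * z).im = (q : ℤ) * (a * z.re + u.re * a') := by
    rw [QuadraticAlgebra.im_mul, ha, ha']; ring
  refine ⟨⟨_, eim⟩, ?_, ?_⟩
  · rw [ere]
    exact (IsCoprime.add_mul_left_left_iff).2 (h2.mul_left h2')
  · rw [ere, hb1, hb1', hr']
    exact ⟨4 * b * b' + b + b' + r * (-(u.im * a')), by ring⟩

lemma c1_div {q : ℕ} {m : ℕ} (hm : m % 4 = 1) {z : Gi} (hz : c1 q ((m : Gi) * z)) : c1 q z := by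
  obtain ⟨h1, h2, ⟨b, hb⟩⟩ := hz
  have ere : ((m : Gi) * z).re = (m : ℤ) * z.re := by
    rw [QuadraticAlgebra.re_mul]
    simp
  have eim : ((m : Gi) * z).im = (m : ℤ) * z.im := by
    rw [QuadraticAlgebra.im_mul]
    simp
  rw [ere] at h2 hb
  rw [eim] at h1
  have hmq : IsCoprime (m : ℤ) (q : ℤ) := h2.of_mul_left_left
  refine ⟨hmq.symm.dvd_of_dvd_mul_left h1, h2.of_mul_left_right, ?_⟩
  obtain ⟨k, hk⟩ : ∃ k : ℤ, (m : ℤ) = 4 * k + 1 := ⟨(m / 4 : ℕ), by omega⟩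
  rw [hk] at hb
  exact ⟨b - k * z.re, by linarith⟩

lemma mod4_of_dvd {m n : ℕ} (hm : m ∣ n) (hn : n ≠ 0)
    (h : ∀ p : ℕ, p.Prime → p ∣ n → p % 4 = 1) : m % 4 = 1 := by
  have hm0 : m ≠ 0 := fun h0 => hn (by rw [h0] at hm; exact zero_dvd_iff.1 hm)
  have key : ∀ k : ℕ, k ≠ 0 → (∀ p : ℕ, p.Prime → p ∣ k → p % 4 = 1) → k % 4 = 1 := by
    intro k
    induction k using Nat.recOnMul with
    | zero => intro h0; exact absurd rfl h0
    | one => intro _ _; rfl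
    | prime p hp => intro _ h; exact h p hp dvd_rfl
    | mul a b iha ihb =>
      intro hab h
      have ha0 : a ≠ 0 := left_ne_zero_of_mul hab
      have hb0 : b ≠ 0 := right_ne_zero_of_mul hab
      have h1 := iha ha0 (fun p hp hpa => h p hp (Dvd.dvd.mul_right hpa b))
      have h2 := ihb hb0 (fun p hp hpb => h p hp (Dvd.dvd.mul_left hpb a))
      rw [Nat.mul_mod, h1, h2]
  exact key m hm0 (fun p hp hpm => h p hp (hpm.trans hm))

/-- sets which meet all sectors between elements of the colour `c1 q` of different signs -/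
theorem sccq {q : ℕ} (hq : 1 ≤ q) (h4 : 4 ∣ q) : S_SCC (c1 q) := by
  have hD := hD01
  have hlat : S_LAT 0 1 := Pool.Agent.W45.GA.lat hD
  obtain ⟨u, hu, hlam, hp⟩ := Pool.Agent.W135.FP.uex q hq h4
  have hu0 : u ≠ 0 := by
    intro h0
    have := hu.2.2
    rw [h0] at this
    simp only [QuadraticAlgebra.re_zero] at this
    omega
  refine Pool.Agent.W538.FP.sc2 hD (Pool.Agent.W803.GA.sect hD) hlat (c1 q) u
    ⟨fun m z hm hz => ?_, fun z hz => c1_mul h4 hu hz, hu0, hlam⟩ (mrq hq h4)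
    (Pool.Agent.W56.FP.A0Q.a0q q hq h4)
  exact c1_div (mod4_of_dvd hm (nm_pos hD hu0).ne' hp) hz

/-- a positive proportion of the pairs of determinant one, `4 ∣ q` -/
theorem posq {q : ℕ} (hq : 1 ≤ q) (h4 : 4 ∣ q) (a : ℤ) : S_POS q a := by
  have hlat : S_LAT 0 1 := Pool.Agent.W45.GA.lat hD01
  exact pos_of hlat Pool.Agent.W362.FP.path
    (Pool.Agent.W392.FP.badp Pool.Agent.W636.FP.dir (Pool.Agent.W64.FP.var hlat))
    Pool.Agent.W337.FP.gaps hq h4 (sccq hq h4) a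

theorem Final.mono {q a : ℕ} (h : Final (4 * q) a) : Final q a := by
  obtain ⟨S, h⟩ := h
  refine ⟨S, fun e₁ e₂ he₁ he₂ => ⟨fun ε hε => ?_, ?_⟩⟩
  · obtain ⟨N₀, h1⟩ := (h e₁ e₂ he₁ he₂).1 ε hε
    refine ⟨N₀, fun N hN => (h1 N hN).trans ?_⟩
    refine Nat.cast_le.2 (Set.ncard_le_ncard ?_ ?_)
    · rintro n ⟨h2, h3, h4, h5⟩
      exact ⟨h2, h3, h4.of_mul_left 4, h5⟩
    · exact (Set.finite_Icc 1 N).subset fun n hn => ⟨hn.1, hn.2.1⟩
  · obtain ⟨κ, hκ, N₀, h1⟩ := (h e₁ e₂ he₁ he₂).2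
    refine ⟨κ, hκ, N₀, fun N hN => (h1 N hN).trans ?_⟩
    refine Nat.cast_le.2 (Set.ncard_le_ncard ?_ ?_)
    · rintro p ⟨h2, h3, h4, h5, ⟨n, h6, h7⟩, h8⟩
      exact ⟨h2, h3, h4, h5, ⟨n, h6.of_mul_left 4, h7⟩, h8⟩
    · exact ((Set.finite_Icc 1 N).prod (Set.finite_Icc 1 N)).subset
        fun p hp => ⟨⟨hp.1, hp.2.1⟩, ⟨hp.2.2.1, hp.2.2.2.1⟩⟩

/-- the final statement for all `q`, `a` -/
theorem final (q a : ℕ) (hq : 1 ≤ q) : Final q a := by
  have hD := hD01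
  have hlat : S_LAT 0 1 := Pool.Agent.W45.GA.lat hD
  have hred : S_RED 0 1 := Pool.Agent.W322.GA.red hD
  have hlati : S_LATI 0 1 := Pool.Agent.W322.GA.lati_of hD hlat hred
  have h4q : 1 ≤ 4 * q := by omega
  refine Final.mono (Pool.Agent.W214.FP.finq (Pool.Agent.W29.GA.mult hD)
    (Pool.Agent.W29.GA.typ_of hD hlat hlati) (Pool.Agent.W29.GA.ve hD) (Pool.Agent.W78.GA.sqb hD) hlat
    (4 * q) a h4q (posq h4q (Dvd.intro q rfl) a))

end Pool.Agent.W84.FP
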